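import Mathlib
import Pool.Agent.H33.CImg2

set_option autoImplicit false

namespace Pool.Agent.Results.MP_b07c92_gt.ConsistentNo

/-- A strongly almost disjoint family of `2 ^ ℵ₁` functions `ω₁ → ω` yields a scattered,
left-separated compactum whose function space maps onto a non-metrizable compact space. -/
theorem result
    (g : ((Ordinal.omega.{0} 1).ToType → Bool) → (Ordinal.omega.{0} 1).ToType → ℕ)
    (hg : ∀ y y', y ≠ y' → {δ | g y δ = g y' δ}.Finite) :
    ∃ (K : Type) (_ : TopologicalSpace K), CompactSpace K ∧ T2Space K ∧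
      (∀ S : Set K, S.Nonempty → ∃ x ∈ S, ∃ O : Set K, IsOpen O ∧ O ∩ S = {x}) ∧
      (∃ r : K → K → Prop, IsWellOrder K r ∧ ∀ x, IsClosed {y | r y x}) ∧
      ∃ (Y : Type) (_ : TopologicalSpace Y), CompactSpace Y ∧ T2Space Y ∧
        ¬ TopologicalSpace.MetrizableSpace Y ∧
        ∃ Ψ : {f : K → ℝ // Continuous f} → Y, Continuous Ψ ∧ Function.Surjective Ψ := by
  obtain ⟨K, t, h1, h2, h3, h4, h5⟩ := Pool.Agent.H33.CImg2.neg g hg
  exact ⟨K, t, h1, h2, h3, h4, _, inferInstance, inferInstance, inferInstance,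
    Pool.Agent.H33.CImg2.not_metr, h5⟩

end Pool.Agent.Results.MP_b07c92_gt.ConsistentNo
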