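import Mathlib
import Pool.Agent.H33.CImg2

set_option autoImplicit false

namespace Pool.Agent.Results.MP_b07c92_gt.Independent

/-- `Q2`: every compact continuous image of `C_p(K)`, `K` left-separated compact, is metrizable. -/
def Q2 : Prop :=
  ∀ (K : Type) [TopologicalSpace K] [CompactSpace K] [T2Space K],
    (∃ r : K → K → Prop, IsWellOrder K r ∧ ∀ x, IsClosed {y | r y x}) →
    ∀ (Y : Type) [TopologicalSpace Y] [CompactSpace Y] [T2Space Y]
      (Ψ : {f : K → ℝ // Continuous f} → Y), Continuous Ψ → Function.Surjective Ψ →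
      TopologicalSpace.MetrizableSpace Y

/-- `Q2` holds if `2 ^ ℵ₀ < 2 ^ ℵ₁` and fails if there is a strongly almost disjoint family of
`2 ^ ℵ₁` functions `ω₁ → ω`. -/
theorem result :
    (Cardinal.continuum.{0} < 2 ^ Cardinal.aleph.{0} 1 → Q2) ∧
    ((∃ g : ((Ordinal.omega.{0} 1).ToType → Bool) → (Ordinal.omega.{0} 1).ToType → ℕ,
      ∀ y y', y ≠ y' → {δ | g y δ = g y' δ}.Finite) → ¬ Q2) := by
  refine ⟨fun hc => ?_, fun ⟨g, hg⟩ h => ?_⟩
  · rintro K _ _ _ ⟨r, _, hr⟩ Y _ _ _ Ψ h1 h2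
    exact Pool.Agent.H33.CImg1.pos hc hr h1 h2
  · obtain ⟨K, t, h1, h2, -, h4, Ψ, h5, h6⟩ := Pool.Agent.H33.CImg2.neg g hg
    exact Pool.Agent.H33.CImg2.not_metr (h K h4 _ Ψ h5 h6)

end Pool.Agent.Results.MP_b07c92_gt.Independent
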